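import Pool.Agent.MP_df6b17_lc.DegreeTop

set_option autoImplicit false

namespace Pool.Agent.Results.MP_df6b17_lc.DegreeTrace

open Pool.Agent.MP_df6b17_lc.Deg in
/-- A language of nonempty words over one letter lies in the smallest family closed under the
+-variety operations that contains the languages P⁺, P a finite maximal bifix code of degree at
most `D`, exactly when it has period `lcm(1, …, D)` from the length `max(1, D - 2)` on. -/
theorem result (D : ℕ) (L : Set (List (Fin 1))) (hL : [] ∉ L) :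
    (∀ (W : (k : ℕ) → Set (Set (List (Fin k)))),
      (∀ k, (∅ : Set (List (Fin k))) ∈ W k) →
      (∀ k, ∀ K ∈ W k, {w : List (Fin k) | w ≠ [] ∧ w ∉ K} ∈ W k) →
      (∀ k, ∀ K ∈ W k, ∀ K' ∈ W k, K ∪ K' ∈ W k) →
      (∀ k, ∀ K ∈ W k, ∀ u : List (Fin k),
          {w : List (Fin k) | w ≠ [] ∧ u ++ w ∈ K} ∈ W k ∧
          {w : List (Fin k) | w ≠ [] ∧ w ++ u ∈ K} ∈ W k) →
      (∀ (k m : ℕ) (φ : Fin m → List (Fin k)), (∀ a, φ a ≠ []) →
          ∀ K ∈ W k, {w : List (Fin m) | w ≠ [] ∧ w.flatMap φ ∈ K} ∈ W m) →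
      (∀ (k : ℕ) (P : Finset (List (Fin k))),
          ([] : List (Fin k)) ∉ P →
          (∀ p ∈ P, ∀ q ∈ P, p <+: q → p = q) →
          (∀ p ∈ P, ∀ q ∈ P, p <:+ q → p = q) →
          (∀ w : List (Fin k), ∃ p ∈ P, w <+: p ∨ p <+: w) →
          (∀ c : Fin k, ∃ d, d ≤ D ∧ List.replicate d c ∈ P) →
          {w : List (Fin k) | ∃ l : List (List (Fin k)),
              l ≠ [] ∧ (∀ p ∈ l, p ∈ P) ∧ w = l.flatten} ∈ W k) →
      L ∈ W 1) ↔
    ∀ k : ℕ, 1 ≤ k → D ≤ k + 2 →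
      (List.replicate k 0 ∈ L ↔ List.replicate (k + (Finset.Icc 1 D).lcm id) 0 ∈ L) := by
  have hl : ∀ k, (∀ d, 1 ≤ d → d ≤ D → d ∣ k) ↔ (Finset.Icc 1 D).lcm id ∣ k := fun k => by
    simp [Finset.lcm_dvd_iff]
  constructor
  · intro h k a b
    have V := Per.var ((hl _).2 dvd_rfl)
    simpa [pw_single] using
      h _ V.emp V.cpl V.uni V.quo V.inv V.cod [] [] [0] (List.cons_ne_nil _ _) k a b
  · intro h W h1 h2 h3 h4 h5 h6
    have h7 := Var.trace ⟨h1, h2, h3, h4, h5, h6⟩ (Nat.pos_of_ne_zero (by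
      simp [Finset.lcm_eq_zero_iff])) hl h
    rwa [show L = {w : List (Fin 1) | w ≠ [] ∧ List.replicate w.length 0 ∈ L} from
      Set.ext fun w => by
        rw [Set.mem_ofPred_eq, ← uno w]
        exact (and_iff_right_of_imp fun (a : w ∈ L) (e : w = []) => hL (e ▸ a)).symm]

end Pool.Agent.Results.MP_df6b17_lc.DegreeTrace
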